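import Mathlib

set_option autoImplicit false
set_option maxHeartbeats 1000000

namespace Pool.Agent.YL.FiveSpheres

/-- A nonnegative ternary form attached to a triangle with side lengths the square roots of
`X`, `Y`, `Z`. -/
theorem form_nonneg (A B C X Y Z d : ℝ) (hX : 0 < X) (hY : 0 < Y) (hZ : 0 < Z)
    (hd : d = 2 * (X * Y + Y * Z + Z * X) - X ^ 2 - Y ^ 2 - Z ^ 2) (hd0 : 0 < d) :
    0 ≤ X * Y * Z * (A + B + C) ^ 2 - d * (X * B * C + Y * C * A + Z * A * B) := by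
  have key : 4 * X * Y * Z * (X * Y * Z * (A + B + C) ^ 2
      - d * (X * B * C + Y * C * A + Z * A * B)) =
      (2 * X * Y * Z * A + B * (2 * X * Y - d) * Z + C * (2 * X * Z - d) * Y) ^ 2
      + d * (B * Z * (X + Y - Z) - C * Y * (X + Z - Y)) ^ 2 := by
    rw [hd]; ring
  have h4 : 0 < 4 * X * Y * Z := by positivity
  have h5 : 0 ≤ 4 * X * Y * Z * (X * Y * Z * (A + B + C) ^ 2
      - d * (X * B * C + Y * C * A + Z * A * B)) := by
    rw [key]; positivity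
  exact nonneg_of_mul_nonneg_right h5 h4

/-- Quadratic form in two variables. -/
theorem quad_nonneg (p q e u v : ℝ) (hp : 0 < p) (h : e ^ 2 ≤ 4 * p * q) :
    0 ≤ p * u ^ 2 + q * v ^ 2 + e * u * v := by
  have h1 : 0 ≤ 4 * p * (p * u ^ 2 + q * v ^ 2 + e * u * v) := by
    have : 4 * p * (p * u ^ 2 + q * v ^ 2 + e * u * v) =
        (2 * p * u + e * v) ^ 2 + (4 * p * q - e ^ 2) * v ^ 2 := by ring
    rw [this]
    have h2 : 0 ≤ 4 * p * q - e ^ 2 := by linarith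
    positivity
  exact nonneg_of_mul_nonneg_right h1 (by positivity)

/-- The case of one positive and two negative values. -/
theorem core_one (A B C X Y Z d τ : ℝ) (hX : 0 < X) (hY : 0 < Y) (hZ : 0 < Z)
    (hd : d = 2 * (X * Y + Y * Z + Z * X) - X ^ 2 - Y ^ 2 - Z ^ 2) (hd0 : 0 < d)
    (hs : A + B + C = 1) (hB : 16 * Y * τ ≤ B ^ 2) (hC : 16 * Z * τ ≤ C ^ 2)
    (hB0 : B < 0) (hC0 : C < 0) :
    0 < 4 * X * Y * Z - d * (X * B * C + Y * C * A + Z * A * B) - 3 * d ^ 2 * τ := by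
  have hYZ : 0 < Y * Z := by positivity
  -- 32 Y Z times the quadratic form
  have hdle : d ≤ 4 * (Y * Z) := by
    have : 4 * (Y * Z) - d = (Y + Z - X) ^ 2 := by rw [hd]; ring
    nlinarith [sq_nonneg (Y + Z - X)]
  have hE : (Y + Z - X) ^ 2 = 4 * (Y * Z) - d := by rw [hd]; ring
  -- kappa
  set k : ℝ := 32 * (Y * Z) - 3 * d with hk
  have hk0 : 0 < k := by
    rw [hk]; linarith
  have hq := quad_nonneg (Z * k) (Y * k) (32 * (Y * Z) * (Y + Z - X)) B C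
    (by positivity) (by
      have h1 : (32 * (Y * Z) * (Y + Z - X)) ^ 2 = 1024 * (Y * Z) ^ 2 * (4 * (Y * Z) - d) := by
        rw [← hE]; ring
      rw [h1]
      have h2 : 4 * (Z * k) * (Y * k) - 1024 * (Y * Z) ^ 2 * (4 * (Y * Z) - d)
          = (Y * Z) * (256 * (Y * Z) * d + 36 * d ^ 2) := by
        rw [hk]; ring
      have h3 : 0 ≤ (Y * Z) * (256 * (Y * Z) * d + 36 * d ^ 2) := by positivity
      linarith)
  -- bound for tau
  have ht1 : 3 * d ^ 2 * τ * (32 * (Y * Z)) ≤ 3 * d ^ 2 * (Z * B ^ 2 + Y * C ^ 2) := by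
    have h1 : Z * (16 * Y * τ) ≤ Z * B ^ 2 := mul_le_mul_of_nonneg_left hB hZ.le
    have h2 : Y * (16 * Z * τ) ≤ Y * C ^ 2 := mul_le_mul_of_nonneg_left hC hY.le
    have h3 : 32 * (Y * Z) * τ ≤ Z * B ^ 2 + Y * C ^ 2 := by nlinarith
    have h4 : 0 ≤ 3 * d ^ 2 := by positivity
    calc 3 * d ^ 2 * τ * (32 * (Y * Z)) = 3 * d ^ 2 * (32 * (Y * Z) * τ) := by ring
      _ ≤ _ := mul_le_mul_of_nonneg_left h3 h4
  -- A > -(B+C)
  have hA : A = 1 - B - C := by linarith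
  have hpos : 0 < 32 * (Y * Z) * (4 * X * Y * Z - d * (X * B * C + Y * C * A + Z * A * B)
      - 3 * d ^ 2 * τ) := by
    have e1 : 32 * (Y * Z) * (4 * X * Y * Z - d * (X * B * C + Y * C * A + Z * A * B)
      - 3 * d ^ 2 * τ) =
      128 * (Y * Z) * X * Y * Z + 32 * (Y * Z) * d * (Y * (-C) + Z * (-B))
      + d * (Z * k * B ^ 2 + Y * k * C ^ 2 + 32 * (Y * Z) * (Y + Z - X) * B * C)
      + (3 * d ^ 2 * (Z * B ^ 2 + Y * C ^ 2) - 3 * d ^ 2 * τ * (32 * (Y * Z))) := by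
      rw [hA, hk]; ring
    rw [e1]
    have p1 : 0 < 128 * (Y * Z) * X * Y * Z := by positivity
    have p2 : 0 ≤ 32 * (Y * Z) * d * (Y * (-C) + Z * (-B)) := by
      have : 0 ≤ -C := by linarith
      have : 0 ≤ -B := by linarith
      positivity
    have p3 : 0 ≤ d * (Z * k * B ^ 2 + Y * k * C ^ 2 + 32 * (Y * Z) * (Y + Z - X) * B * C) :=
      mul_nonneg hd0.le hq
    linarith
  exact (mul_pos_iff_of_pos_left (by positivity)).1 hpos

/-- The case of three positive values. -/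
theorem core_pos (A B C X Y Z d τ : ℝ) (hX : 0 < X) (hY : 0 < Y) (hZ : 0 < Z)
    (hd : d = 2 * (X * Y + Y * Z + Z * X) - X ^ 2 - Y ^ 2 - Z ^ 2) (hd0 : 0 < d)
    (hs : A + B + C = 1) (hA : 16 * X * τ ≤ A ^ 2) (hB : 16 * Y * τ ≤ B ^ 2)
    (hC : 16 * Z * τ ≤ C ^ 2) (hτ : 0 < τ)
    (hA0 : 0 < A) (hB0 : 0 < B) (hC0 : 0 < C) :
    0 < 4 * X * Y * Z - d * (X * B * C + Y * C * A + Z * A * B) - 3 * d ^ 2 * τ := by
  have d1 : d ≤ 4 * (Y * Z) := by
    have : 4 * (Y * Z) - d = (Y + Z - X) ^ 2 := by rw [hd]; ring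
    nlinarith [sq_nonneg (Y + Z - X)]
  have d2 : d ≤ 4 * (X * Z) := by
    have : 4 * (X * Z) - d = (X + Z - Y) ^ 2 := by rw [hd]; ring
    nlinarith [sq_nonneg (X + Z - Y)]
  have d3 : d ≤ 4 * (X * Y) := by
    have : 4 * (X * Y) - d = (X + Y - Z) ^ 2 := by rw [hd]; ring
    nlinarith [sq_nonneg (X + Y - Z)]
  have s1 : d ^ 2 * τ ≤ X * Y * Z * A ^ 2 := by
    have h1 : d * d ≤ (4 * (X * Y)) * (4 * (X * Z)) := mul_le_mul d3 d2 hd0.le (by positivity)
    calc d ^ 2 * τ = (d * d) * τ := by ring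
      _ ≤ ((4 * (X * Y)) * (4 * (X * Z))) * τ := mul_le_mul_of_nonneg_right h1 hτ.le
      _ = X * Y * Z * (16 * X * τ) := by ring
      _ ≤ _ := mul_le_mul_of_nonneg_left hA (by positivity)
  have s2 : d ^ 2 * τ ≤ X * Y * Z * B ^ 2 := by
    have h1 : d * d ≤ (4 * (X * Y)) * (4 * (Y * Z)) := mul_le_mul d3 d1 hd0.le (by positivity)
    calc d ^ 2 * τ = (d * d) * τ := by ring
      _ ≤ ((4 * (X * Y)) * (4 * (Y * Z))) * τ := mul_le_mul_of_nonneg_right h1 hτ.le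
      _ = X * Y * Z * (16 * Y * τ) := by ring
      _ ≤ _ := mul_le_mul_of_nonneg_left hB (by positivity)
  have s3 : d ^ 2 * τ ≤ X * Y * Z * C ^ 2 := by
    have h1 : d * d ≤ (4 * (X * Z)) * (4 * (Y * Z)) := mul_le_mul d2 d1 hd0.le (by positivity)
    calc d ^ 2 * τ = (d * d) * τ := by ring
      _ ≤ ((4 * (X * Z)) * (4 * (Y * Z))) * τ := mul_le_mul_of_nonneg_right h1 hτ.le
      _ = X * Y * Z * (16 * Z * τ) := by ring
      _ ≤ _ := mul_le_mul_of_nonneg_left hC (by positivity)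
  have r1 : d * (X * B * C) ≤ 4 * (Y * Z) * (X * B * C) :=
    mul_le_mul_of_nonneg_right d1 (by positivity)
  have r2 : d * (Y * C * A) ≤ 4 * (X * Z) * (Y * C * A) :=
    mul_le_mul_of_nonneg_right d2 (by positivity)
  have r3 : d * (Z * A * B) ≤ 4 * (X * Y) * (Z * A * B) :=
    mul_le_mul_of_nonneg_right d3 (by positivity)
  have e : 4 * X * Y * Z = 4 * X * Y * Z * (A + B + C) ^ 2 := by rw [hs]; ring
  have pos : 0 < X * Y * Z * (3 * (A ^ 2 + B ^ 2 + C ^ 2) + 4 * (B * C + C * A + A * B)) := by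
    positivity
  have e2 : 4 * X * Y * Z - d * (X * B * C + Y * C * A + Z * A * B) - 3 * d ^ 2 * τ
      = X * Y * Z * (3 * (A ^ 2 + B ^ 2 + C ^ 2) + 4 * (B * C + C * A + A * B))
      + (4 * (Y * Z) * (X * B * C) - d * (X * B * C))
      + (4 * (X * Z) * (Y * C * A) - d * (Y * C * A))
      + (4 * (X * Y) * (Z * A * B) - d * (Z * A * B))
      + (X * Y * Z * A ^ 2 - d ^ 2 * τ) + (X * Y * Z * B ^ 2 - d ^ 2 * τ)
      + (X * Y * Z * C ^ 2 - d ^ 2 * τ) := by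
    rw [e]; ring
  rw [e2]
  linarith

/-- The algebraic core: the posed identity cannot hold. -/
theorem core (t1 t2 t3 t4 m12 m13 m14 m23 m24 m34 d : ℝ)
    (h12 : 0 < m12) (h13 : 0 < m13) (h14 : 0 < m14) (h23 : 0 < m23) (h24 : 0 < m24)
    (h34 : 0 < m34)
    (hs : t1 + t2 + t3 + t4 = 1)
    (e1 : m12 * t2 + m13 * t3 + m14 * t4 = 1)
    (e2 : m12 * t1 + m23 * t3 + m24 * t4 = 1)
    (e3 : m13 * t1 + m23 * t2 + m34 * t4 = 1)
    (e4 : m14 * t1 + m24 * t2 + m34 * t3 = 1)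
    (n1 : t1 ≠ 0) (n2 : t2 ≠ 0) (n3 : t3 ≠ 0) (n4 : t4 ≠ 0)
    (hd : d = 2 * ((m12 * m34) * (m13 * m24) + (m13 * m24) * (m14 * m23)
      + (m14 * m23) * (m12 * m34)) - (m12 * m34) ^ 2 - (m13 * m24) ^ 2 - (m14 * m23) ^ 2)
    (hd0 : 0 < d)
    (hE : 4 * (m12 * m13 * m14 * m23 * m24 * m34) = 3 * d ^ 2 * (t1 * t2 * t3 * t4)
      + 4 * d * (m23 * m24 * m34 * (t2 * t3 * t4) + m13 * m14 * m34 * (t1 * t3 * t4)
      + m12 * m14 * m24 * (t1 * t2 * t4) + m12 * m13 * m23 * (t1 * t2 * t3))) : False := by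
  set A : ℝ := 2 * (t1 * t2 * m12 + t3 * t4 * m34) with hA
  set B : ℝ := 2 * (t1 * t3 * m13 + t2 * t4 * m24) with hB
  set C : ℝ := 2 * (t1 * t4 * m14 + t2 * t3 * m23) with hC
  set τ : ℝ := t1 * t2 * t3 * t4 with hτ
  have hABC : A + B + C = 1 := by
    rw [hA, hB, hC]
    linear_combination t1 * e1 + t2 * e2 + t3 * e3 + t4 * e4 + hs
  have gA : 16 * (m12 * m34) * τ ≤ A ^ 2 := by
    rw [hA, hτ]; nlinarith [sq_nonneg (t1 * t2 * m12 - t3 * t4 * m34)]
  have gB : 16 * (m13 * m24) * τ ≤ B ^ 2 := by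
    rw [hB, hτ]; nlinarith [sq_nonneg (t1 * t3 * m13 - t2 * t4 * m24)]
  have gC : 16 * (m14 * m23) * τ ≤ C ^ 2 := by
    rw [hC, hτ]; nlinarith [sq_nonneg (t1 * t4 * m14 - t2 * t3 * m23)]
  have hX : 0 < m12 * m34 := by positivity
  have hY : 0 < m13 * m24 := by positivity
  have hZ : 0 < m14 * m23 := by positivity
  -- the identity for the mixed terms
  have hmix : (m12 * m34) * B * C + (m13 * m24) * C * A + (m14 * m23) * A * B
      = 4 * (m23 * m24 * m34 * (t2 * t3 * t4) + m13 * m14 * m34 * (t1 * t3 * t4)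
      + m12 * m14 * m24 * (t1 * t2 * t4) + m12 * m13 * m23 * (t1 * t2 * t3)) := by
    rw [hA, hB, hC]
    linear_combination 4 * (m23 * m24 * m34 * (t2 * t3 * t4)) * e1
      + 4 * (m13 * m14 * m34 * (t1 * t3 * t4)) * e2
      + 4 * (m12 * m14 * m24 * (t1 * t2 * t4)) * e3
      + 4 * (m12 * m13 * m23 * (t1 * t2 * t3)) * e4
  have hzero : 4 * (m12 * m34) * (m13 * m24) * (m14 * m23)
      - d * ((m12 * m34) * B * C + (m13 * m24) * C * A + (m14 * m23) * A * B)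
      - 3 * d ^ 2 * τ = 0 := by
    rw [hmix]
    linear_combination hE
  have hd' : d = 2 * ((m12 * m34) * (m13 * m24) + (m13 * m24) * (m14 * m23)
      + (m14 * m23) * (m12 * m34)) - (m12 * m34) ^ 2 - (m13 * m24) ^ 2 - (m14 * m23) ^ 2 := hd
  have hτ0 : τ ≠ 0 := by rw [hτ]; positivity
  rcases lt_or_gt_of_ne hτ0 with hneg | hpos
  · have h1 := form_nonneg A B C _ _ _ d hX hY hZ hd' hd0
    rw [hABC] at h1
    have h2 : 0 < 3 * ((m12 * m34) * (m13 * m24) * (m14 * m23)) := by positivity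
    have h3 : 0 < d ^ 2 * (-τ) := by
      have : 0 < -τ := by linarith
      positivity
    have h4 : 4 * (m12 * m34) * (m13 * m24) * (m14 * m23)
        = 4 * ((m12 * m34) * (m13 * m24) * (m14 * m23)) := by ring
    have h5 : 3 * d ^ 2 * τ = -(3 * (d ^ 2 * (-τ))) := by ring
    rw [h4, h5] at hzero
    have h6 : m12 * m34 * (m13 * m24) * (m14 * m23) * 1 ^ 2
        = m12 * m34 * (m13 * m24) * (m14 * m23) := by ring
    first
      | linarith
      | (rw [h6] at h1; linarith)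
  · -- signs
    have hsA : 0 < (t1 * t2) * (t3 * t4) := by
      have : (t1 * t2) * (t3 * t4) = τ := by rw [hτ]; ring
      rw [this]; exact hpos
    have hsB : 0 < (t1 * t3) * (t2 * t4) := by
      have : (t1 * t3) * (t2 * t4) = τ := by rw [hτ]; ring
      rw [this]; exact hpos
    have hsC : 0 < (t1 * t4) * (t2 * t3) := by
      have : (t1 * t4) * (t2 * t3) = τ := by rw [hτ]; ring
      rw [this]; exact hpos
    have cA : (0 < t1 * t2 ∧ 0 < A) ∨ (t1 * t2 < 0 ∧ A < 0) := by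
      rcases pos_and_pos_or_neg_and_neg_of_mul_pos hsA with ⟨u, v⟩ | ⟨u, v⟩
      · left; refine ⟨u, ?_⟩; rw [hA]; positivity
      · right; refine ⟨u, ?_⟩; rw [hA]; nlinarith [mul_neg_of_neg_of_pos u h12,
          mul_neg_of_neg_of_pos v h34]
    have cB : (0 < t1 * t3 ∧ 0 < B) ∨ (t1 * t3 < 0 ∧ B < 0) := by
      rcases pos_and_pos_or_neg_and_neg_of_mul_pos hsB with ⟨u, v⟩ | ⟨u, v⟩
      · left; refine ⟨u, ?_⟩; rw [hB]; positivity
      · right; refine ⟨u, ?_⟩; rw [hB]; nlinarith [mul_neg_of_neg_of_pos u h13,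
          mul_neg_of_neg_of_pos v h24]
    have cC : (0 < t1 * t4 ∧ 0 < C) ∨ (t1 * t4 < 0 ∧ C < 0) := by
      rcases pos_and_pos_or_neg_and_neg_of_mul_pos hsC with ⟨u, v⟩ | ⟨u, v⟩
      · left; refine ⟨u, ?_⟩; rw [hC]; positivity
      · right; refine ⟨u, ?_⟩; rw [hC]; nlinarith [mul_neg_of_neg_of_pos u h14,
          mul_neg_of_neg_of_pos v h23]
    have hprod : 0 < (t1 * t2) * (t1 * t3) * (t1 * t4) := by
      have h1 : 0 < t1 ^ 2 := by positivity
      have : (t1 * t2) * (t1 * t3) * (t1 * t4) = t1 ^ 2 * τ := by rw [hτ]; ring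
      rw [this]; positivity
    rcases cA with ⟨a0, a1⟩ | ⟨a0, a1⟩ <;> rcases cB with ⟨b0, b1⟩ | ⟨b0, b1⟩ <;>
      rcases cC with ⟨c0, c1⟩ | ⟨c0, c1⟩
    · have := core_pos A B C _ _ _ d τ hX hY hZ hd' hd0 hABC gA gB gC hpos a1 b1 c1
      linarith
    · exact absurd hprod (not_lt.2 (mul_nonpos_of_nonneg_of_nonpos (mul_pos a0 b0).le c0.le))
    · exact absurd hprod (not_lt.2 (mul_nonpos_of_nonpos_of_nonneg
        (mul_nonpos_of_nonneg_of_nonpos a0.le b0.le) c0.le))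
    · have := core_one A B C _ _ _ d τ hX hY hZ hd' hd0 hABC gB gC b1 c1
      linarith
    · exact absurd hprod (not_lt.2 (mul_nonpos_of_nonpos_of_nonneg
        (mul_nonpos_of_nonpos_of_nonneg a0.le b0.le) c0.le))
    · have := core_one B A C (m13 * m24) (m12 * m34) (m14 * m23) d τ hY hX hZ
        (by rw [hd']; ring) hd0 (by linarith) gA gC a1 c1
      linarith
    · have := core_one C A B (m14 * m23) (m12 * m34) (m13 * m24) d τ hZ hX hY
        (by rw [hd']; ring) hd0 (by linarith) gA gB a1 b1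
      linarith
    · exact absurd hprod (not_lt.2 (mul_nonpos_of_nonneg_of_nonpos
        (mul_nonneg_of_nonpos_of_nonpos a0.le b0.le) c0.le))

end Pool.Agent.YL.FiveSpheres
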