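import Mathlib
import Pool.Agent.YL.FiveSpheres1

set_option autoImplicit false
set_option maxHeartbeats 1000000

namespace Pool.Agent.YL.FiveSpheres

theorem core2 (t1 t2 t3 t4 r1 r2 r3 r4 m12 m13 m14 m23 m24 m34 d : ℝ)
    (h12 : 0 < m12) (h13 : 0 < m13) (h14 : 0 < m14) (h23 : 0 < m23) (h24 : 0 < m24)
    (h34 : 0 < m34)
    (hs : t1 + t2 + t3 + t4 = 1)
    (e1 : m12 * t2 + m13 * t3 + m14 * t4 = 1)
    (e2 : m12 * t1 + m23 * t3 + m24 * t4 = 1)
    (e3 : m13 * t1 + m23 * t2 + m34 * t4 = 1)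
    (e4 : m14 * t1 + m24 * t2 + m34 * t3 = 1)
    (n1 : t1 ≠ 0) (n2 : t2 ≠ 0) (n3 : t3 ≠ 0) (n4 : t4 ≠ 0)
    (hd : d = 2 * ((m12 * m34) * (m13 * m24) + (m13 * m24) * (m14 * m23)
      + (m14 * m23) * (m12 * m34)) - (m12 * m34) ^ 2 - (m13 * m24) ^ 2 - (m14 * m23) ^ 2)
    (hd0 : 0 < d)
    (H1 : d * (4 * t1 * r1 - t1 ^ 2) = 2 * (m23 * m24 * m34))
    (H2 : d * (4 * t2 * r2 - t2 ^ 2) = 2 * (m13 * m14 * m34))
    (H3 : d * (4 * t3 * r3 - t3 ^ 2) = 2 * (m12 * m14 * m24))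
    (H4 : d * (4 * t4 * r4 - t4 ^ 2) = 2 * (m12 * m13 * m23))
    (hR : r1 + r2 + r3 + r4 = 2 * (r1 * r2 * m12 + r1 * r3 * m13 + r1 * r4 * m14
      + r2 * r3 * m23 + r2 * r4 * m24 + r3 * r4 * m34)) : False := by
  obtain ⟨q1, hq1⟩ : ∃ q1, r1 = t1 / 4 + q1 / 2 := ⟨2 * r1 - t1 / 2, by ring⟩
  obtain ⟨q2, hq2⟩ : ∃ q2, r2 = t2 / 4 + q2 / 2 := ⟨2 * r2 - t2 / 2, by ring⟩
  obtain ⟨q3, hq3⟩ : ∃ q3, r3 = t3 / 4 + q3 / 2 := ⟨2 * r3 - t3 / 2, by ring⟩
  obtain ⟨q4, hq4⟩ : ∃ q4, r4 = t4 / 4 + q4 / 2 := ⟨2 * r4 - t4 / 2, by ring⟩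
  subst hq1 hq2 hq3 hq4
  have K1 : d * t1 * q1 = m23 * m24 * m34 := by linear_combination H1 / 2
  have K2 : d * t2 * q2 = m13 * m14 * m34 := by linear_combination H2 / 2
  have K3 : d * t3 * q3 = m12 * m14 * m24 := by linear_combination H3 / 2
  have K4 : d * t4 * q4 = m12 * m13 * m23 := by linear_combination H4 / 2
  have T2 : 2 * (m12 * t1 * t2 + m13 * t1 * t3 + m14 * t1 * t4 + m23 * t2 * t3
      + m24 * t2 * t4 + m34 * t3 * t4) = 1 := by
    linear_combination t1 * e1 + t2 * e2 + t3 * e3 + t4 * e4 + hs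
  have star : 3 / 16 + (q1 + q2 + q3 + q4) / 4 = (1 / 2) * (m12 * q1 * q2 + m13 * q1 * q3
      + m14 * q1 * q4 + m23 * q2 * q3 + m24 * q2 * q4 + m34 * q3 * q4) := by
    linear_combination hR - hs / 4 + T2 / 16 + (q1 * e1 + q2 * e2 + q3 * e3 + q4 * e4) / 4
  refine core t1 t2 t3 t4 m12 m13 m14 m23 m24 m34 d h12 h13 h14 h23 h24 h34 hs e1 e2 e3 e4
    n1 n2 n3 n4 hd hd0 ?_
  have P12 : d ^ 2 * (t1 * t2 * t3 * t4) * (m12 * q1 * q2)
      = (m12 * m13 * m14 * m23 * m24 * m34) * (m34 * t3 * t4) := by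
    have : d ^ 2 * (t1 * t2 * t3 * t4) * (m12 * q1 * q2)
        = m12 * t3 * t4 * ((d * t1 * q1) * (d * t2 * q2)) := by ring
    rw [this, K1, K2]; ring
  have P13 : d ^ 2 * (t1 * t2 * t3 * t4) * (m13 * q1 * q3)
      = (m12 * m13 * m14 * m23 * m24 * m34) * (m24 * t2 * t4) := by
    have : d ^ 2 * (t1 * t2 * t3 * t4) * (m13 * q1 * q3)
        = m13 * t2 * t4 * ((d * t1 * q1) * (d * t3 * q3)) := by ring
    rw [this, K1, K3]; ring
  have P14 : d ^ 2 * (t1 * t2 * t3 * t4) * (m14 * q1 * q4)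
      = (m12 * m13 * m14 * m23 * m24 * m34) * (m23 * t2 * t3) := by
    have : d ^ 2 * (t1 * t2 * t3 * t4) * (m14 * q1 * q4)
        = m14 * t2 * t3 * ((d * t1 * q1) * (d * t4 * q4)) := by ring
    rw [this, K1, K4]; ring
  have P23 : d ^ 2 * (t1 * t2 * t3 * t4) * (m23 * q2 * q3)
      = (m12 * m13 * m14 * m23 * m24 * m34) * (m14 * t1 * t4) := by
    have : d ^ 2 * (t1 * t2 * t3 * t4) * (m23 * q2 * q3)
        = m23 * t1 * t4 * ((d * t2 * q2) * (d * t3 * q3)) := by ring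
    rw [this, K2, K3]; ring
  have P24 : d ^ 2 * (t1 * t2 * t3 * t4) * (m24 * q2 * q4)
      = (m12 * m13 * m14 * m23 * m24 * m34) * (m13 * t1 * t3) := by
    have : d ^ 2 * (t1 * t2 * t3 * t4) * (m24 * q2 * q4)
        = m24 * t1 * t3 * ((d * t2 * q2) * (d * t4 * q4)) := by ring
    rw [this, K2, K4]; ring
  have P34 : d ^ 2 * (t1 * t2 * t3 * t4) * (m34 * q3 * q4)
      = (m12 * m13 * m14 * m23 * m24 * m34) * (m12 * t1 * t2) := by
    have : d ^ 2 * (t1 * t2 * t3 * t4) * (m34 * q3 * q4)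
        = m34 * t1 * t2 * ((d * t3 * q3) * (d * t4 * q4)) := by ring
    rw [this, K3, K4]; ring
  linear_combination -16 * d ^ 2 * (t1 * t2 * t3 * t4) * star
    - 8 * (P12 + P13 + P14 + P23 + P24 + P34)
    - 4 * (m12 * m13 * m14 * m23 * m24 * m34) * T2
    + 4 * d * (t2 * t3 * t4 * K1 + t1 * t3 * t4 * K2 + t1 * t2 * t4 * K3 + t1 * t2 * t3 * K4)


/-- Diagonal entries of the inverse of a symmetric `4 × 4` matrix with zero diagonal. -/
theorem adj_diag (x1 x2 x3 x4 m12 m13 m14 m23 m24 m34 d : ℝ)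
    (hd : d = 2 * ((m12 * m34) * (m13 * m24) + (m13 * m24) * (m14 * m23)
      + (m14 * m23) * (m12 * m34)) - (m12 * m34) ^ 2 - (m13 * m24) ^ 2 - (m14 * m23) ^ 2)
    (E1 : m12 * x2 + m13 * x3 + m14 * x4 = 1)
    (E2 : m12 * x1 + m23 * x3 + m24 * x4 = 0)
    (E3 : m13 * x1 + m23 * x2 + m34 * x4 = 0)
    (E4 : m14 * x1 + m24 * x2 + m34 * x3 = 0) :
    d * (-x1) = 2 * (m23 * m24 * m34) := by
  rw [hd]
  linear_combination (2 * (m23 * m24 * m34)) * E1
    + (m34 * (m12 * m34 - m13 * m24 - m14 * m23)) * E2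
    + (m24 * (m13 * m24 - m12 * m34 - m14 * m23)) * E3
    + (m23 * (m14 * m23 - m12 * m34 - m13 * m24)) * E4

open Matrix in
/-- The geometric lemma: there are no five unit spheres in space such that every four of them
have a common point lying off the fifth one (the first four centres are `a i`, the fifth is `c`,
the common point of the first four spheres is the origin). -/
theorem five (a p : Fin 4 → Fin 3 → ℝ) (c : Fin 3 → ℝ)
    (ha : ∀ i, a i 0 ^ 2 + a i 1 ^ 2 + a i 2 ^ 2 = 1)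
    (hp : ∀ i j, i ≠ j → (p j 0 - a i 0) ^ 2 + (p j 1 - a i 1) ^ 2 + (p j 2 - a i 2) ^ 2 = 1)
    (hpc : ∀ j, (p j 0 - c 0) ^ 2 + (p j 1 - c 1) ^ 2 + (p j 2 - c 2) ^ 2 = 1)
    (hm : ∀ j, (p j 0 - a j 0) ^ 2 + (p j 1 - a j 1) ^ 2 + (p j 2 - a j 2) ^ 2 ≠ 1)
    (hc : c 0 ^ 2 + c 1 ^ 2 + c 2 ^ 2 ≠ 1) : False := by
  set m : Fin 4 → ℝ := fun j =>
    (p j 0 - a j 0) ^ 2 + (p j 1 - a j 1) ^ 2 + (p j 2 - a j 2) ^ 2 - 1 with hmdef
  have hm0 : ∀ j, m j ≠ 0 := fun j h => hm j (by simp only [hmdef] at h; linarith)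
  set π : Fin 4 → ℝ := fun j => p j 0 ^ 2 + p j 1 ^ 2 + p j 2 ^ 2 with hπ
  have hπ0 : ∀ j, π j ≠ 0 := by
    intro j h
    have h0 : p j 0 = 0 := by
      have : p j 0 ^ 2 = 0 := le_antisymm (by simp only [hπ] at h; nlinarith [sq_nonneg (p j 1), sq_nonneg (p j 2)]) (sq_nonneg _)
      exact pow_eq_zero_iff (two_ne_zero) |>.1 this
    have h1 : p j 1 = 0 := by
      have : p j 1 ^ 2 = 0 := le_antisymm (by simp only [hπ] at h; nlinarith [sq_nonneg (p j 0), sq_nonneg (p j 2)]) (sq_nonneg _)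
      exact pow_eq_zero_iff (two_ne_zero) |>.1 this
    have h2 : p j 2 = 0 := by
      have : p j 2 ^ 2 = 0 := le_antisymm (by simp only [hπ] at h; nlinarith [sq_nonneg (p j 0), sq_nonneg (p j 1)]) (sq_nonneg _)
      exact pow_eq_zero_iff (two_ne_zero) |>.1 this
    have := hpc j
    rw [h0, h1, h2] at this
    apply hc
    linarith
  have hoff : ∀ i j, i ≠ j → π j = 2 * (a i 0 * p j 0 + a i 1 * p j 1 + a i 2 * p j 2) := by
    intro i j hij
    have := hp i j hij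
    simp only [hπ]
    linear_combination this - ha i
  have hdiag : ∀ j, π j = 2 * (a j 0 * p j 0 + a j 1 * p j 1 + a j 2 * p j 2) + m j := by
    intro j
    simp only [hπ, hmdef]
    linear_combination - ha j
  -- the two matrices
  let B : Matrix (Fin 4) (Fin 4) ℝ := fun i l => (Fin.cons 1 (a i) : Fin 4 → ℝ) l
  let N : Matrix (Fin 4) (Fin 4) ℝ := fun l j =>
    (Fin.cons (π j / m j) (fun k => -(2 * p j k / m j)) : Fin 4 → ℝ) l
  have hBN : B * N = 1 := by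
    ext i j
    rw [Matrix.mul_apply, Fin.sum_univ_succ, Fin.sum_univ_three]
    simp only [B, N, Fin.cons_zero, Fin.cons_succ]
    by_cases hij : i = j
    · subst hij
      rw [Matrix.one_apply_eq]
      have h := hdiag i
      have hh := hm0 i
      field_simp
      linear_combination h
    · rw [Matrix.one_apply_ne hij]
      have h := hoff i j hij
      have hh := hm0 j
      field_simp
      linear_combination h
  have hNB : N * B = 1 := _root_.mul_eq_one_comm.1 hBN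
  set t : Fin 4 → ℝ := fun j => π j / m j with ht
  set r : Fin 4 → ℝ := fun j => 1 / m j with hr
  set w : Fin 4 → Fin 3 → ℝ := fun j k => 2 * p j k / m j with hw
  -- consequences of `N * B = 1`
  have hst : t 0 + t 1 + t 2 + t 3 = 1 := by
    have h := congrFun (congrFun hNB 0) 0
    rw [Matrix.mul_apply, Fin.sum_univ_four, Matrix.one_apply_eq] at h
    simp only [B, N, Fin.cons_zero] at h
    linear_combination h
  have hsta : ∀ l : Fin 3, t 0 * a 0 l + t 1 * a 1 l + t 2 * a 2 l + t 3 * a 3 l = 0 := by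
    intro l
    have h := congrFun (congrFun hNB 0) l.succ
    rw [Matrix.mul_apply, Fin.sum_univ_four, Matrix.one_apply_ne (Fin.succ_ne_zero l).symm] at h
    simp only [B, N, Fin.cons_zero, Fin.cons_succ] at h
    linear_combination h
  have hsw : ∀ k : Fin 3, w 0 k + w 1 k + w 2 k + w 3 k = 0 := by
    intro k
    have h := congrFun (congrFun hNB k.succ) 0
    rw [Matrix.mul_apply, Fin.sum_univ_four, Matrix.one_apply_ne (Fin.succ_ne_zero k)] at h
    simp only [B, N, Fin.cons_zero, Fin.cons_succ] at h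
    simp only [hw]
    linear_combination -h
  have hswa1 : ∀ k : Fin 3, w 0 k * a 0 k + w 1 k * a 1 k + w 2 k * a 2 k + w 3 k * a 3 k
      = -1 := by
    intro k
    have h := congrFun (congrFun hNB k.succ) k.succ
    rw [Matrix.mul_apply, Fin.sum_univ_four, Matrix.one_apply_eq] at h
    simp only [B, N, Fin.cons_succ] at h
    simp only [hw]
    linear_combination -h
  have hswa0 : ∀ k l : Fin 3, k ≠ l →
      w 0 k * a 0 l + w 1 k * a 1 l + w 2 k * a 2 l + w 3 k * a 3 l = 0 := by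
    intro k l hkl
    have h := congrFun (congrFun hNB k.succ) l.succ
    rw [Matrix.mul_apply, Fin.sum_univ_four,
      Matrix.one_apply_ne (fun h => hkl (Fin.succ_injective _ h))] at h
    simp only [B, N, Fin.cons_succ] at h
    simp only [hw]
    linear_combination -h
  -- the matrix of the `m i j`
  obtain ⟨mm, hmm⟩ : ∃ mm : Fin 4 → Fin 4 → ℝ, ∀ i j,
      mm i j = 1 - (a i 0 * a j 0 + a i 1 * a j 1 + a i 2 * a j 2) := ⟨_, fun _ _ => rfl⟩
  have mmd : ∀ i, mm i i = 0 := by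
    intro i; rw [hmm]; linear_combination -ha i
  have mms : ∀ i j, mm i j = mm j i := by
    intro i j; rw [hmm, hmm]; ring
  have mmpos : ∀ i j, i ≠ j → 0 < mm i j := by
    intro i j hij
    by_contra hcon
    have hcon' : mm i j ≤ 0 := not_lt.1 hcon
    have key : (a i 0 - a j 0) ^ 2 + (a i 1 - a j 1) ^ 2 + (a i 2 - a j 2) ^ 2 = 2 * mm i j := by
      rw [hmm]; linear_combination ha i + ha j
    have k0 : a i 0 = a j 0 := by
      have : (a i 0 - a j 0) ^ 2 = 0 := le_antisymm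
        (by nlinarith [sq_nonneg (a i 1 - a j 1), sq_nonneg (a i 2 - a j 2)]) (sq_nonneg _)
      exact sub_eq_zero.1 (pow_eq_zero_iff (two_ne_zero) |>.1 this)
    have k1 : a i 1 = a j 1 := by
      have : (a i 1 - a j 1) ^ 2 = 0 := le_antisymm
        (by nlinarith [sq_nonneg (a i 0 - a j 0), sq_nonneg (a i 2 - a j 2)]) (sq_nonneg _)
      exact sub_eq_zero.1 (pow_eq_zero_iff (two_ne_zero) |>.1 this)
    have k2 : a i 2 = a j 2 := by
      have : (a i 2 - a j 2) ^ 2 = 0 := le_antisymm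
        (by nlinarith [sq_nonneg (a i 1 - a j 1), sq_nonneg (a i 0 - a j 0)]) (sq_nonneg _)
      exact sub_eq_zero.1 (pow_eq_zero_iff (two_ne_zero) |>.1 this)
    apply hm i
    rw [k0, k1, k2]
    exact hp j i (Ne.symm hij)
  have E : ∀ i, mm i 0 * t 0 + mm i 1 * t 1 + mm i 2 * t 2 + mm i 3 * t 3 = 1 := by
    intro i
    rw [hmm, hmm, hmm, hmm]
    linear_combination hst - a i 0 * hsta 0 - a i 1 * hsta 1 - a i 2 * hsta 2
  -- the inverse matrix
  obtain ⟨v, hv⟩ : ∃ v : Fin 4 → Fin 4 → ℝ, ∀ k j,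
      v k j = t k * t j - (w k 0 * w j 0 + w k 1 * w j 1 + w k 2 * w j 2) := ⟨_, fun _ _ => rfl⟩
  have G : ∀ i j, t j - (a i 0 * w j 0 + a i 1 * w j 1 + a i 2 * w j 2)
      = if i = j then 1 else 0 := by
    intro i j
    by_cases hij : i = j
    · subst hij
      rw [if_pos rfl]
      have h := hdiag i
      have hh := hm0 i
      simp only [ht, hw]
      field_simp
      linear_combination h
    · rw [if_neg hij]
      have h := hoff i j hij
      have hh := hm0 j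
      simp only [ht, hw]
      field_simp
      linear_combination h
  have F : ∀ i j, mm i 0 * v 0 j + mm i 1 * v 1 j + mm i 2 * v 2 j + mm i 3 * v 3 j
      = if i = j then 1 else 0 := by
    intro i j
    rw [← G i j, hmm, hmm, hmm, hmm, hv, hv, hv, hv]
    linear_combination t j * hst - w j 0 * hsw 0 - w j 1 * hsw 1 - w j 2 * hsw 2
      - t j * a i 0 * hsta 0 - t j * a i 1 * hsta 1 - t j * a i 2 * hsta 2
      + a i 0 * w j 0 * hswa1 0 + a i 1 * w j 1 * hswa1 1 + a i 2 * w j 2 * hswa1 2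
      + a i 0 * w j 1 * hswa0 1 0 (by decide) + a i 0 * w j 2 * hswa0 2 0 (by decide)
      + a i 1 * w j 0 * hswa0 0 1 (by decide) + a i 1 * w j 2 * hswa0 2 1 (by decide)
      + a i 2 * w j 0 * hswa0 0 2 (by decide) + a i 2 * w j 1 * hswa0 1 2 (by decide)
  have S : ∀ j, 4 * t j * r j - t j ^ 2 = - v j j := by
    intro j
    have hh := hm0 j
    rw [hv]
    simp only [ht, hw, hr, hπ]
    field_simp
    ring
  obtain ⟨d, hd⟩ : ∃ d : ℝ, d = 2 * ((mm 0 1 * mm 2 3) * (mm 0 2 * mm 1 3)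
      + (mm 0 2 * mm 1 3) * (mm 0 3 * mm 1 2) + (mm 0 3 * mm 1 2) * (mm 0 1 * mm 2 3))
      - (mm 0 1 * mm 2 3) ^ 2 - (mm 0 2 * mm 1 3) ^ 2 - (mm 0 3 * mm 1 2) ^ 2 := ⟨_, rfl⟩
  have D0 : d * (-v 0 0) = 2 * (mm 1 2 * mm 1 3 * mm 2 3) := by
    refine adj_diag (v 0 0) (v 1 0) (v 2 0) (v 3 0) (mm 0 1) (mm 0 2) (mm 0 3) (mm 1 2) (mm 1 3)
      (mm 2 3) d (by rw [hd]) ?_ ?_ ?_ ?_
    · have := F 0 0; rw [mmd, if_pos rfl] at this; linear_combination this
    · have := F 1 0; rw [mmd, if_neg (by decide), mms 1 0] at this; linear_combination this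
    · have := F 2 0; rw [mmd, if_neg (by decide), mms 2 0, mms 2 1] at this
      linear_combination this
    · have := F 3 0; rw [mmd, if_neg (by decide), mms 3 0, mms 3 1, mms 3 2] at this
      linear_combination this
  have D1 : d * (-v 1 1) = 2 * (mm 0 2 * mm 0 3 * mm 2 3) := by
    refine adj_diag (v 1 1) (v 0 1) (v 2 1) (v 3 1) (mm 0 1) (mm 1 2) (mm 1 3) (mm 0 2) (mm 0 3)
      (mm 2 3) d (by rw [hd]; ring) ?_ ?_ ?_ ?_
    · have := F 1 1; rw [mmd, if_pos rfl, mms 1 0] at this; linear_combination this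
    · have := F 0 1; rw [mmd, if_neg (by decide)] at this; linear_combination this
    · have := F 2 1; rw [mmd, if_neg (by decide), mms 2 0, mms 2 1] at this
      linear_combination this
    · have := F 3 1; rw [mmd, if_neg (by decide), mms 3 0, mms 3 1, mms 3 2] at this
      linear_combination this
  have D2 : d * (-v 2 2) = 2 * (mm 0 1 * mm 0 3 * mm 1 3) := by
    have h := adj_diag (v 2 2) (v 1 2) (v 0 2) (v 3 2) (mm 1 2) (mm 0 2) (mm 2 3) (mm 0 1)
      (mm 1 3) (mm 0 3) d (by rw [hd]; ring) ?_ ?_ ?_ ?_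
    · linear_combination h
    · have := F 2 2; rw [mmd, if_pos rfl, mms 2 0, mms 2 1] at this; linear_combination this
    · have := F 1 2; rw [mmd, if_neg (by decide), mms 1 0] at this; linear_combination this
    · have := F 0 2; rw [mmd, if_neg (by decide)] at this; linear_combination this
    · have := F 3 2; rw [mmd, if_neg (by decide), mms 3 0, mms 3 1, mms 3 2] at this
      linear_combination this
  have D3 : d * (-v 3 3) = 2 * (mm 0 1 * mm 0 2 * mm 1 2) := by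
    have h := adj_diag (v 3 3) (v 1 3) (v 2 3) (v 0 3) (mm 1 3) (mm 2 3) (mm 0 3) (mm 1 2)
      (mm 0 1) (mm 0 2) d (by rw [hd]; ring) ?_ ?_ ?_ ?_
    · linear_combination h
    · have := F 3 3; rw [mmd, if_pos rfl, mms 3 0, mms 3 1, mms 3 2] at this
      linear_combination this
    · have := F 1 3; rw [mmd, if_neg (by decide), mms 1 0] at this; linear_combination this
    · have := F 2 3; rw [mmd, if_neg (by decide), mms 2 0, mms 2 1] at this
      linear_combination this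
    · have := F 0 3; rw [mmd, if_neg (by decide)] at this; linear_combination this
  have hd0 : 0 < d := by
    have hcs : π 0 * (π 0 - 4) ≤ 0 := by
      have h1 := hoff 1 0 (by decide)
      have h2 : π 0 = (a 1 0 ^ 2 + a 1 1 ^ 2 + a 1 2 ^ 2) * (p 0 0 ^ 2 + p 0 1 ^ 2 + p 0 2 ^ 2) := by
        rw [ha 1, one_mul]
      have h3 : (a 1 0 ^ 2 + a 1 1 ^ 2 + a 1 2 ^ 2) * (p 0 0 ^ 2 + p 0 1 ^ 2 + p 0 2 ^ 2)
          = (a 1 0 * p 0 0 + a 1 1 * p 0 1 + a 1 2 * p 0 2) ^ 2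
          + (a 1 0 * p 0 1 - a 1 1 * p 0 0) ^ 2 + (a 1 1 * p 0 2 - a 1 2 * p 0 1) ^ 2
          + (a 1 0 * p 0 2 - a 1 2 * p 0 0) ^ 2 := by ring
      have h4 : (a 1 0 * p 0 0 + a 1 1 * p 0 1 + a 1 2 * p 0 2) ^ 2 ≤ π 0 := by
        rw [h2, h3]
        nlinarith [sq_nonneg (a 1 0 * p 0 1 - a 1 1 * p 0 0),
          sq_nonneg (a 1 1 * p 0 2 - a 1 2 * p 0 1), sq_nonneg (a 1 0 * p 0 2 - a 1 2 * p 0 0)]
      have h5 : π 0 * π 0 ≤ 4 * π 0 := by
        calc π 0 * π 0 = 4 * (a 1 0 * p 0 0 + a 1 1 * p 0 1 + a 1 2 * p 0 2) ^ 2 := by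
              rw [h1]; ring
          _ ≤ 4 * π 0 := by linarith
      linarith
    have hs0 : 0 ≤ - v 0 0 := by
      rw [← S 0]
      have : 4 * t 0 * r 0 - t 0 ^ 2 = -(π 0 * (π 0 - 4)) / (m 0) ^ 2 := by
        have hh := hm0 0
        simp only [ht, hr]
        field_simp
        ring
      rw [this]
      apply div_nonneg (by linarith) (sq_nonneg _)
    have hμ : 0 < d * (-v 0 0) := by
      rw [D0]
      have h1 := mmpos 1 2 (by decide)
      have h2 := mmpos 1 3 (by decide)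
      have h3 := mmpos 2 3 (by decide)
      positivity
    by_contra hcon
    have : d * (-v 0 0) ≤ 0 := mul_nonpos_of_nonpos_of_nonneg (not_lt.1 hcon) hs0
    linarith
  -- the relation for the fifth sphere
  obtain ⟨ϖ, hϖ⟩ : ∃ ϖ : ℝ, ϖ = 1 - (c 0 ^ 2 + c 1 ^ 2 + c 2 ^ 2) := ⟨_, rfl⟩
  have hϖ0 : ϖ ≠ 0 := by
    intro h
    apply hc
    linarith
  have C1 : ∀ j, w j 0 * c 0 + w j 1 * c 1 + w j 2 * c 2 = t j - ϖ * r j := by
    intro j
    have h := hpc j
    have hh := hm0 j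
    simp only [hw, ht, hr, hπ]
    field_simp
    rw [hϖ]
    linear_combination -h
  have C2 : ϖ * (r 0 + r 1 + r 2 + r 3) = 1 := by
    linear_combination hst + C1 0 + C1 1 + C1 2 + C1 3
      - c 0 * hsw 0 - c 1 * hsw 1 - c 2 * hsw 2
  have C3 : ∀ l, c l = ϖ * (r 0 * a 0 l + r 1 * a 1 l + r 2 * a 2 l + r 3 * a 3 l) := by
    intro l
    have hl : ∀ l : Fin 3, c 0 * (w 0 0 * a 0 l + w 1 0 * a 1 l + w 2 0 * a 2 l + w 3 0 * a 3 l)
        + c 1 * (w 0 1 * a 0 l + w 1 1 * a 1 l + w 2 1 * a 2 l + w 3 1 * a 3 l)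
        + c 2 * (w 0 2 * a 0 l + w 1 2 * a 1 l + w 2 2 * a 2 l + w 3 2 * a 3 l) = - c l := by
      intro l
      fin_cases l
      · have h1 := hswa1 0
        have h2 := hswa0 1 0 (by decide)
        have h3 := hswa0 2 0 (by decide)
        simp only [Fin.zero_eta, Fin.mk_one, Fin.reduceFinMk]
        linear_combination c 0 * h1 + c 1 * h2 + c 2 * h3
      · have h1 := hswa1 1
        have h2 := hswa0 0 1 (by decide)
        have h3 := hswa0 2 1 (by decide)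
        simp only [Fin.zero_eta, Fin.mk_one, Fin.reduceFinMk]
        linear_combination c 1 * h1 + c 0 * h2 + c 2 * h3
      · have h1 := hswa1 2
        have h2 := hswa0 0 2 (by decide)
        have h3 := hswa0 1 2 (by decide)
        simp only [Fin.zero_eta, Fin.mk_one, Fin.reduceFinMk]
        linear_combination c 2 * h1 + c 0 * h2 + c 1 * h3
    linear_combination hl l - (a 0 l * C1 0 + a 1 l * C1 1 + a 2 l * C1 2 + a 3 l * C1 3)
      - hsta l
  have hR : r 0 + r 1 + r 2 + r 3 = 2 * (r 0 * r 1 * mm 0 1 + r 0 * r 2 * mm 0 2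
      + r 0 * r 3 * mm 0 3 + r 1 * r 2 * mm 1 2 + r 1 * r 3 * mm 1 3 + r 2 * r 3 * mm 2 3) := by
    have hcc : c 0 ^ 2 + c 1 ^ 2 + c 2 ^ 2 = ϖ ^ 2 * ((r 0 + r 1 + r 2 + r 3) ^ 2
        - 2 * (r 0 * r 1 * mm 0 1 + r 0 * r 2 * mm 0 2
      + r 0 * r 3 * mm 0 3 + r 1 * r 2 * mm 1 2 + r 1 * r 3 * mm 1 3 + r 2 * r 3 * mm 2 3)) := by
      rw [C3 0, C3 1, C3 2, hmm, hmm, hmm, hmm, hmm, hmm]
      linear_combination ϖ ^ 2 * (r 0 ^ 2 * ha 0 + r 1 ^ 2 * ha 1 + r 2 ^ 2 * ha 2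
        + r 3 ^ 2 * ha 3)
    have h1 : ϖ * ϖ * ((r 0 + r 1 + r 2 + r 3) - 2 * (r 0 * r 1 * mm 0 1 + r 0 * r 2 * mm 0 2
      + r 0 * r 3 * mm 0 3 + r 1 * r 2 * mm 1 2 + r 1 * r 3 * mm 1 3 + r 2 * r 3 * mm 2 3)) = 0 := by
      linear_combination hϖ - hcc + (ϖ - ϖ * (r 0 + r 1 + r 2 + r 3) - 1) * C2
    rcases mul_eq_zero.1 h1 with h2 | h2
    · exact absurd h2 (mul_ne_zero hϖ0 hϖ0)
    · linarith
  have tn : ∀ j, t j ≠ 0 := fun j => div_ne_zero (hπ0 j) (hm0 j)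
  refine core2 (t 0) (t 1) (t 2) (t 3) (r 0) (r 1) (r 2) (r 3) (mm 0 1) (mm 0 2) (mm 0 3)
    (mm 1 2) (mm 1 3) (mm 2 3) d (mmpos _ _ (by decide)) (mmpos _ _ (by decide))
    (mmpos _ _ (by decide)) (mmpos _ _ (by decide)) (mmpos _ _ (by decide))
    (mmpos _ _ (by decide)) hst ?_ ?_ ?_ ?_ (tn 0) (tn 1) (tn 2) (tn 3) hd hd0 ?_ ?_ ?_ ?_ hR
  · have := E 0; rw [mmd] at this; linear_combination this
  · have := E 1; rw [mmd, mms 1 0] at this; linear_combination this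
  · have := E 2; rw [mmd, mms 2 0, mms 2 1] at this; linear_combination this
  · have := E 3; rw [mmd, mms 3 0, mms 3 1, mms 3 2] at this; linear_combination this
  · rw [S]; exact D0
  · rw [S]; exact D1
  · rw [S]; exact D2
  · rw [S]; exact D3

end Pool.Agent.YL.FiveSpheres
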