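import Mathlib
import Pool.Agent.YL.FiveSpheres2

set_option autoImplicit false
set_option maxHeartbeats 1000000

namespace Pool.Agent.YL.FiveSpheres

/-- Euclidean three-space. -/
abbrev E3 := EuclideanSpace ℝ (Fin 3)

theorem mem_sphere_iff (p c : E3) : p ∈ Metric.sphere c 1 ↔
    (p 0 - c 0) ^ 2 + (p 1 - c 1) ^ 2 + (p 2 - c 2) ^ 2 = 1 := by
  rw [Metric.mem_sphere, EuclideanSpace.dist_eq, Fin.sum_univ_three, Real.sqrt_eq_one]
  simp only [Real.dist_eq, sq_abs]

/-- Five unit spheres such that every four meet have a common point. -/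
theorem five_common (q : Fin 5 → E3)
    (h : ∀ i, ∃ p : E3, ∀ j, j ≠ i → p ∈ Metric.sphere (q j) 1) :
    ∃ p : E3, ∀ j, p ∈ Metric.sphere (q j) 1 := by
  by_contra hcon
  have hcon' : ∀ p : E3, ∃ j, p ∉ Metric.sphere (q j) 1 := by
    intro p
    by_contra hp
    exact hcon ⟨p, fun j => by by_contra hj; exact hp ⟨j, hj⟩⟩
  choose P hP using h
  have hoff : ∀ i, P i ∉ Metric.sphere (q i) 1 := by
    intro i hi
    obtain ⟨j, hj⟩ := hcon' (P i)
    by_cases hji : j = i
    · subst hji; exact hj hi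
    · exact hj (hP i j hji)
  have hne : ∀ j : Fin 4, (4 : Fin 5) ≠ j.castSucc := fun j => (Fin.castSucc_lt_last j).ne'
  refine five (fun i k => q i.castSucc k - P 4 k) (fun j k => P j.castSucc k - P 4 k)
    (fun k => q 4 k - P 4 k) ?_ ?_ ?_ ?_ ?_
  · intro i
    have := (mem_sphere_iff _ _).1 (hP 4 i.castSucc (hne i).symm)
    simp only
    linear_combination this
  · intro i j hij
    have := (mem_sphere_iff _ _).1 (hP j.castSucc i.castSucc
      (fun h => hij (Fin.castSucc_injective _ h)))
    simp only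
    linear_combination this
  · intro j
    have := (mem_sphere_iff _ _).1 (hP j.castSucc 4 (hne j))
    simp only
    linear_combination this
  · intro j hj
    apply hoff j.castSucc
    rw [mem_sphere_iff]
    simp only at hj
    linear_combination hj
  · intro hj
    apply hoff 4
    rw [mem_sphere_iff]
    simp only at hj
    linear_combination hj

/-- The vector attached to a sphere. -/
noncomputable def ell (c : E3) : ℝ × ℝ × E3 := (1, ‖c‖ ^ 2 - 1, c)

theorem ell_injective : Function.Injective ell := by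
  intro a b h
  have := congrArg (fun x => x.2.2) h
  simpa [ell] using this

/-- The linear functional attached to a point. -/
noncomputable def phi (p : E3) : (ℝ × ℝ × E3) →ₗ[ℝ] ℝ :=
  (‖p‖ ^ 2) • LinearMap.fst ℝ ℝ (ℝ × E3)
    + (LinearMap.fst ℝ ℝ E3).comp (LinearMap.snd ℝ ℝ (ℝ × E3))
    - (2 : ℝ) • ((innerₛₗ ℝ p).comp ((LinearMap.snd ℝ ℝ E3).comp (LinearMap.snd ℝ ℝ (ℝ × E3))))

theorem phi_ell (p c : E3) : phi p (ell c) = 0 ↔ p ∈ Metric.sphere c 1 := by
  have h1 : phi p (ell c) = ‖p - c‖ ^ 2 - 1 := by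
    rw [@norm_sub_sq_real]
    simp only [phi, ell, LinearMap.sub_apply, LinearMap.add_apply, LinearMap.smul_apply,
      LinearMap.comp_apply, LinearMap.fst_apply, LinearMap.snd_apply, innerₛₗ_apply_apply,
      smul_eq_mul]
    ring
  rw [h1, Metric.mem_sphere, dist_eq_norm]
  constructor
  · intro h
    have h2 : ‖p - c‖ ^ 2 = 1 ^ 2 := by linarith
    exact (pow_left_inj₀ (norm_nonneg _) zero_le_one two_ne_zero).1 h2
  · intro h
    rw [h]; norm_num

theorem helly (S : Set E3) (h5 : 5 ≤ S.encard)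
    (h : ∀ T : Set E3, T ⊆ S → T.encard = 4 →
      ∃ p : E3, ∀ c ∈ T, p ∈ Metric.sphere c 1) :
    ∃ p : E3, ∀ c ∈ S, p ∈ Metric.sphere c 1 := by
  -- five members spanning
  obtain ⟨b, hbS, hspan, hli⟩ := exists_linearIndependent ℝ (ell '' S)
  have hbfin : b.encard ≤ 5 := by
    have hfin : b.Finite := hli.setFinite
    have : Fintype b := hfin.fintype
    have hcard := hli.fintype_card_le_finrank
    have hrank : Module.finrank ℝ (ℝ × ℝ × E3) = 5 := by
      rw [Module.finrank_prod, Module.finrank_prod, finrank_euclideanSpace_fin,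
        Module.finrank_self]
    rw [hrank] at hcard
    rw [Set.encard_eq_coe_toFinset_card, Set.toFinset_card]
    exact_mod_cast hcard
  set T0 : Set E3 := S ∩ ell ⁻¹' b with hT0
  have himg : ell '' T0 = b := by
    rw [hT0, Set.image_inter_preimage, Set.inter_eq_right]
    exact hbS
  have hT0card : T0.encard ≤ 5 := by
    rw [← ell_injective.encard_image T0, himg]
    exact hbfin
  obtain ⟨T, hT0T, hTS, hTcard⟩ :=
    Set.exists_superset_subset_encard_eq (Set.inter_subset_left : T0 ⊆ S) hT0card h5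
  -- enumerate T
  have hTfin : T.Finite := Set.finite_of_encard_eq_coe (k := 5) hTcard
  obtain ⟨q, hqinj, hqrange⟩ : ∃ q : Fin 5 → E3, Function.Injective q ∧ Set.range q = T := by
    have hn : T.ncard = 5 := by
      rw [Set.ncard_def, hTcard]; rfl
    have := hTfin.fintype
    have hc : Fintype.card T = 5 := by
      rw [← Nat.card_eq_fintype_card, Nat.card_coe_set_eq, hn]
    let e := (Fintype.equivFinOfCardEq hc).symm
    refine ⟨fun i => (e i : E3), Subtype.val_injective.comp e.injective, ?_⟩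
    ext x
    constructor
    · rintro ⟨i, rfl⟩; exact (e i).2
    · intro hx
      exact ⟨e.symm ⟨x, hx⟩, by simp⟩
  have hfour : ∀ i, ∃ p : E3, ∀ j, j ≠ i → p ∈ Metric.sphere (q j) 1 := by
    intro i
    have hqi : q i ∈ T := hqrange ▸ Set.mem_range_self i
    obtain ⟨p, hp⟩ := h (T \ {q i}) (Set.sdiff_subset.trans hTS) (by
      have := Set.encard_sdiff_singleton_add_one hqi
      rw [hTcard] at this
      have h4 : (5 : ℕ∞) = 4 + 1 := by norm_num
      rw [h4] at this
      exact WithTop.add_right_cancel (by exact ENat.natCast_ne_top 1) this)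
    refine ⟨p, fun j hj => hp (q j) ⟨hqrange ▸ Set.mem_range_self j, ?_⟩⟩
    intro hji
    exact hj (hqinj hji)
  obtain ⟨p, hp⟩ := five_common q hfour
  refine ⟨p, fun c hc => ?_⟩
  rw [← phi_ell]
  have hle : Submodule.span ℝ (ell '' S) ≤ LinearMap.ker (phi p) := by
    rw [← hspan, Submodule.span_le]
    intro x hx
    rw [← himg] at hx
    obtain ⟨c', hc', rfl⟩ := hx
    have : c' ∈ T := hT0T hc'
    rw [← hqrange] at this
    obtain ⟨j, rfl⟩ := this
    exact (phi_ell _ _).2 (hp j)
  exact hle (Submodule.subset_span ⟨c, hc, rfl⟩)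

end Pool.Agent.YL.FiveSpheres
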